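import Pool.Agent.Helper68.EP.St4

/-!
# Project EP (MP_cb927e_an): module EZC, the good entries at a point
-/

set_option autoImplicit false

open MeasureTheory Set Filter Topology
open scoped ENNReal RealInnerProductSpace

namespace Pool.Agent.Helper38.EP

open Pool.Agent.Helper68.LM (Pl BB Bd Av HL ft fm DQ)
open Pool.Agent.Helper20.RG
open Pool.Agent.Helper20.RL (RQ Rich BM Fml)
open Pool.Agent.Helper68.EP

/-- `Fo` is decreasing in the age -/
theorem ezc_Fo_anti (hEFB : StEFB) (P : Par) (u : ℕ) (k : ℤ) (q q' : ℕ) (E : Set Pl) (h : q ≤ q') :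
    Fo P u k q' E ⊆ Fo P u k q E := by
  unfold Fo
  apply hEFB.2.1
  · have : (2 : ℤ) ^ q ≤ 2 ^ q' := pow_le_pow_right₀ (by norm_num) h
    omega
  · exact le_rfl

/-- the level is unique -/
theorem ezc_lv_unique (hEFB : StEFB) (P : Par) (u : ℕ) (k : ℤ) (q q' : ℕ) (E : Set Pl) (z : Pl)
    (h1 : z ∈ Lv P u k q E) (h2 : z ∈ Lv P u k q' E) : q = q' := by
  rcases lt_trichotomy q q' with h | h | h
  · exact absurd (ezc_Fo_anti hEFB P u k (q + 1) q' E h h2.1) h1.2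
  · exact h
  · exact absurd (ezc_Fo_anti hEFB P u k (q' + 1) q E h h1.1) h2.2

/-- at most `2^q` scales of given level -/
theorem ezc_K (hEFB : StEFB) (P : Par) (u q : ℕ) (E : Set Pl) (z : Pl) :
    ∑' k : ℤ, (Lv P u k q E).indicator (fun _ => (1 : ℝ≥0∞)) z ≤ (2 : ℝ≥0∞) ^ q := by
  classical
  by_cases hne : ∃ k : ℤ, z ∈ Lv P u k q E
  · obtain ⟨k₁, hk₁⟩ := hne
    have key : ∀ k k' : ℤ, z ∈ Lv P u k q E → z ∈ Lv P u k' q E → k' < k + 2 ^ q := by
      intro k k' hk hk'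
      by_contra hcon
      push Not at hcon
      apply hk'.2
      have hsub : Fo P u k q E ⊆ Fo P u k' (q + 1) E := by
        unfold Fo
        apply hEFB.2.1
        · rw [pow_succ]; linarith
        · exact le_rfl
      exact hsub hk.1
    obtain ⟨k₀, hk₀, hmin⟩ := Int.exists_least_of_bdd (P := fun k => z ∈ Lv P u k q E)
      ⟨k₁ - 2 ^ q, fun k hk => by have := key k k₁ hk hk₁; linarith⟩ ⟨k₁, hk₁⟩
    have hsub : ∀ k : ℤ, z ∈ Lv P u k q E → k ∈ Finset.Ico k₀ (k₀ + 2 ^ q) := by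
      intro k hk
      rw [Finset.mem_Ico]
      exact ⟨hmin k hk, key k₀ k hk₀ hk⟩
    rw [tsum_eq_sum (s := Finset.Ico k₀ (k₀ + 2 ^ q))
      (fun k hk => Set.indicator_of_notMem (fun h => hk (hsub k h)) _)]
    calc ∑ k ∈ Finset.Ico k₀ (k₀ + 2 ^ q), (Lv P u k q E).indicator (fun _ => (1 : ℝ≥0∞)) z
        ≤ ∑ k ∈ Finset.Ico k₀ (k₀ + 2 ^ q), (1 : ℝ≥0∞) := by
          apply Finset.sum_le_sum
          intro k _
          by_cases h : z ∈ Lv P u k q E
          · rw [Set.indicator_of_mem h]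
          · rw [Set.indicator_of_notMem h]; exact zero_le
      _ = 2 ^ q := by
          rw [Finset.sum_const, Int.card_Ico]
          have : (k₀ + 2 ^ q - k₀ : ℤ).toNat = 2 ^ q := by
            have : (k₀ + 2 ^ q - k₀ : ℤ) = ((2 ^ q : ℕ) : ℤ) := by push_cast; ring
            rw [this, Int.toNat_natCast]
          rw [this]
          simp
  · push Not at hne
    have : ∀ k : ℤ, (Lv P u k q E).indicator (fun _ => (1 : ℝ≥0∞)) z = 0 :=
      fun k => Set.indicator_of_notMem (hne k) _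
    simp [this]

/-- the scales of the entries are bounded above -/
theorem ezc_bdd (hEF1 : StEF1) (P : Par) (Δ : Dat) (U₀ U₁ : ℕ) (θ : ℝ) (E : Set Pl) (z : Pl)
    (hSy : Sy P Δ) (hOk : ∀ u : ℕ, U₀ ≤ u → u ≤ U₁ → Ok P u θ) (hE : BM E) (hU : U₀ ≤ U₁) :
    ∃ b : ℤ, ∀ (k : ℤ) (u j : ℕ), U₀ ≤ u → u ≤ U₁ → j < 2 ^ u → z ∈ Tc P Δ u j k θ E → k ≤ b := by
  have hθ : 0 < θ := (hOk U₀ le_rfl hU).th.1
  have hfin : volume E ≠ ∞ := by
    exact hE.2.measure_lt_top.ne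
  obtain ⟨n, hn⟩ := pow_unbounded_of_one_lt (32 / θ * (volume E).toReal) (by norm_num : (1 : ℝ) < 4)
  have hn' : (volume E).toReal < θ / 32 * (4 : ℝ) ^ n := by
    have h1 : θ / 32 * (32 / θ * (volume E).toReal) < θ / 32 * (4 : ℝ) ^ n :=
      mul_lt_mul_of_pos_left hn (by positivity)
    have h2 : θ / 32 * (32 / θ * (volume E).toReal) = (volume E).toReal := by
      field_simp
    rwa [h2] at h1
  refine ⟨n + ∑ u ∈ Finset.Icc U₀ U₁, 2 ^ q1 P u, ?_⟩
  intro k u j h0 h1 hj hz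
  obtain ⟨⟨hB1, hB2, hB3⟩, hv, -⟩ := hEF1 P Δ u j k θ E z hSy (hOk u h0 h1) hj hE hz
  have hfl := (hSy.flat u j (hOk u h0 h1).u1 hj).2
  have hq : (2 ^ q1 P u : ℕ) ≤ ∑ u ∈ Finset.Icc U₀ U₁, 2 ^ q1 P u :=
    Finset.single_le_sum (f := fun u => 2 ^ q1 P u) (fun _ _ => Nat.zero_le _)
      (Finset.mem_Icc.mpr ⟨h0, h1⟩)
  have hBn : Bc P Δ u j k θ E z + 1 < n := by
    by_contra hcon
    push Not at hcon
    have h4 : (4 : ℝ) ^ n ≤ (4 : ℝ) ^ (Bc P Δ u j k θ E z + 1) := by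
      rw [← zpow_natCast]
      exact zpow_le_zpow_right₀ (by norm_num) hcon
    have h5 : ENNReal.ofReal (θ / 32 * (4 : ℝ) ^ (Bc P Δ u j k θ E z + 1)) ≤ volume E :=
      hv.trans (measure_mono inter_subset_left)
    rw [← ENNReal.ofReal_toReal hfin] at h5
    rw [ENNReal.ofReal_le_ofReal_iff ENNReal.toReal_nonneg] at h5
    have h6 : θ / 32 * (4 : ℝ) ^ n ≤ θ / 32 * (4 : ℝ) ^ (Bc P Δ u j k θ E z + 1) :=
      mul_le_mul_of_nonneg_left h4 (by positivity)
    linarith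
  have hfl' : (Δ.fl u j : ℤ) ≤ ∑ u ∈ Finset.Icc U₀ U₁, 2 ^ q1 P u := by
    exact_mod_cast hfl.trans hq
  linarith

theorem hEZC (hEFB : StEFB) (hEF1 : StEF1) : StEZC := by
  classical
  intro P Δ U₀ U₁ θ M E z hSy hOk hE
  by_cases hex : ∃ (k : ℤ) (u j : ℕ), U₀ ≤ u ∧ u ≤ U₁ ∧ j < 2 ^ u ∧ z ∈ Gd P Δ U₀ U₁ u j k θ M E
  swap
  · refine ⟨0, ?_⟩
    intro u hu
    rw [Finset.mem_Icc] at hu
    have h0 : ∑ j ∈ Finset.range (2 ^ u), ∑' k : ℤ,
        (Gd P Δ U₀ U₁ u j k θ M E).indicator (fun _ => (1 : ℝ≥0∞)) z = 0 := by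
      apply Finset.sum_eq_zero
      intro j hj
      rw [ENNReal.tsum_eq_zero]
      intro k
      apply Set.indicator_of_notMem
      intro hz
      exact hex ⟨k, u, j, hu.1, hu.2, Finset.mem_range.mp hj, hz⟩
    rw [h0]
    exact zero_le
  obtain ⟨k₁, u₁, j₁, hu₁, hu₁', hj₁, hz₁⟩ := hex
  obtain ⟨b, hb⟩ := ezc_bdd hEF1 P Δ U₀ U₁ θ E z hSy hOk hE (hu₁.trans hu₁')
  obtain ⟨ks, ⟨us, js, hus, hus', hjs, hzs⟩, hmax⟩ := Int.exists_greatest_of_bdd
    (P := fun k => ∃ (u j : ℕ), U₀ ≤ u ∧ u ≤ U₁ ∧ j < 2 ^ u ∧ z ∈ Gd P Δ U₀ U₁ u j k θ M E)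
    ⟨b, fun k ⟨u, j, h0, h1, hj, hz⟩ => hb k u j h0 h1 hj hz.1⟩ ⟨k₁, u₁, j₁, hu₁, hu₁', hj₁, hz₁⟩
  refine ⟨Δ.sl us js, ?_⟩
  set s : ℝ := Δ.sl us js with hs
  intro u hu
  rw [Finset.mem_Icc] at hu
  obtain ⟨hu0, hu1⟩ := hu
  have hok := hOk u hu0 hu1
  -- the indices of given level
  set J : ℕ → Set ℕ := fun q => {j | j < 2 ^ u ∧ ∃ k : ℤ, z ∈ Gd P Δ U₀ U₁ u j k θ M E ∧
    z ∈ Lv P u k q E} with hJ
  -- the properties of the indices
  have hJprop : ∀ q : ℕ, q0 P u ≤ q → q < q1 P u → ∀ j ∈ J q,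
      |Δ.sl u j - s| ≤ (2 : ℝ) ^ (-((2 ^ (q - 3) : ℕ) : ℤ)) ∧
      max 1 M ≤ (2 : ℝ) ^ u * Δ.ell s (2 ^ (q - 3) - 1) := by
    intro q hq0 hq1 j hj
    obtain ⟨hj, k, hz, hlv⟩ := hj
    have hkk : k ≤ ks := hmax k ⟨u, j, hu0, hu1, hj, hz⟩
    have hsl : |Δ.sl u j - s| ≤ (2 : ℝ) ^ (-((2 ^ (q - 3) : ℕ) : ℤ)) := by
      by_contra hcon
      push Not at hcon
      exact hzs.2.2 u q hu0 hu1 hq0 hq1 ⟨hzs.1, j, hj, k, hkk, hz.1, hlv, hcon⟩
    refine ⟨hsl, ?_⟩
    have hq5 : 5 ≤ q := hok.qq.1.trans hq0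
    have hfl : 2 ^ q < Δ.fl u j :=
      ((hEF1 P Δ u j k θ E z hSy hok hj hE hz.1).2.2.2.1 q hq0 hq1.le hlv.1).2.1
    have hX : 2 ^ q = 8 * 2 ^ (q - 3) := by
      have : q = q - 3 + 3 := by omega
      conv_lhs => rw [this]
      rw [pow_add]; ring
    have hX4 : 4 ≤ 2 ^ (q - 3) := by
      have : 2 ^ 2 ≤ 2 ^ (q - 3) := Nat.pow_le_pow_right (by norm_num) (by omega)
      simpa using this
    have huX : 64 * u ≤ 2 ^ q := hok.uq.trans (Nat.pow_le_pow_right (by norm_num) hq0)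
    have hact : 1 ≤ (2 : ℝ) ^ u * Δ.ell (Δ.sl u j) (2 ^ (q - 3)) := by
      apply hSy.act u j _ hok.u1 hj
      omega
    have hcn : M ≤ (2 : ℝ) ^ u * Δ.ell (Δ.sl u j) (2 ^ (q - 3)) := by
      obtain ⟨q', -, -, hlv', hM⟩ := hz.2.1
      rw [ezc_lv_unique hEFB P u k q q' E z hlv hlv']
      exact hM
    have hshift : Δ.ell (Δ.sl u j) (2 ^ (q - 3)) ≤ Δ.ell s (2 ^ (q - 3) - 1) := by
      have h1 : 2 ^ (q - 3) = 2 ^ (q - 3) - 1 + 1 := by omega
      have h2 := hSy.shift (Δ.sl u j) s (2 ^ (q - 3) - 1) (by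
        refine hsl.trans (le_of_eq ?_)
        congr 2
        have : (2 ^ (q - 3) : ℕ) = 2 ^ (q - 3) - 1 + 1 := by omega
        rw [show ((2 ^ (q - 3) : ℕ) : ℤ) = ((2 ^ (q - 3) - 1 + 1 : ℕ) : ℤ) from by rw [← this]]
        push_cast
        rfl)
      rwa [← h1] at h2
    have hpos : (0 : ℝ) < 2 ^ u := by positivity
    have h3 : (2 : ℝ) ^ u * Δ.ell (Δ.sl u j) (2 ^ (q - 3)) ≤
        (2 : ℝ) ^ u * Δ.ell s (2 ^ (q - 3) - 1) := mul_le_mul_of_nonneg_left hshift hpos.le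
    exact max_le (hact.trans h3) (hcn.trans h3)
  -- pointwise bound
  have hpt : ∀ j ∈ Finset.range (2 ^ u), ∀ k : ℤ,
      (Gd P Δ U₀ U₁ u j k θ M E).indicator (fun _ => (1 : ℝ≥0∞)) z ≤
      ∑ q ∈ Finset.Ico (q0 P u) (q1 P u), (J q).indicator (fun _ => (1 : ℝ≥0∞)) j *
        (Lv P u k q E).indicator (fun _ => (1 : ℝ≥0∞)) z := by
    intro j hj k
    rw [Finset.mem_range] at hj
    by_cases hz : z ∈ Gd P Δ U₀ U₁ u j k θ M E
    · obtain ⟨q, hq0, hq1, hlv⟩ := (hEF1 P Δ u j k θ E z hSy hok hj hE hz.1).2.2.2.2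
      have hjJ : j ∈ J q := ⟨hj, k, hz, hlv⟩
      rw [Set.indicator_of_mem hz]
      calc (1 : ℝ≥0∞) = (J q).indicator (fun _ => (1 : ℝ≥0∞)) j *
            (Lv P u k q E).indicator (fun _ => (1 : ℝ≥0∞)) z := by
            rw [Set.indicator_of_mem hjJ, Set.indicator_of_mem hlv, one_mul]
        _ ≤ _ := Finset.single_le_sum (f := fun q => (J q).indicator (fun _ => (1 : ℝ≥0∞)) j *
            (Lv P u k q E).indicator (fun _ => (1 : ℝ≥0∞)) z) (fun _ _ => zero_le)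
            (Finset.mem_Ico.mpr ⟨hq0, hq1⟩)
    · rw [Set.indicator_of_notMem hz]; exact zero_le
  -- exchange of the sums
  calc ∑ j ∈ Finset.range (2 ^ u), ∑' k : ℤ,
        (Gd P Δ U₀ U₁ u j k θ M E).indicator (fun _ => (1 : ℝ≥0∞)) z
      ≤ ∑ j ∈ Finset.range (2 ^ u), ∑' k : ℤ, ∑ q ∈ Finset.Ico (q0 P u) (q1 P u),
        (J q).indicator (fun _ => (1 : ℝ≥0∞)) j *
          (Lv P u k q E).indicator (fun _ => (1 : ℝ≥0∞)) z :=
        Finset.sum_le_sum (fun j hj => ENNReal.tsum_le_tsum (fun k => hpt j hj k))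
    _ = ∑ j ∈ Finset.range (2 ^ u), ∑ q ∈ Finset.Ico (q0 P u) (q1 P u),
        (J q).indicator (fun _ => (1 : ℝ≥0∞)) j *
          ∑' k : ℤ, (Lv P u k q E).indicator (fun _ => (1 : ℝ≥0∞)) z := by
        apply Finset.sum_congr rfl
        intro j _
        rw [Summable.tsum_finsetSum (fun _ _ => ENNReal.summable)]
        apply Finset.sum_congr rfl
        intro q _
        rw [ENNReal.tsum_mul_left]
    _ = ∑ q ∈ Finset.Ico (q0 P u) (q1 P u), (∑ j ∈ Finset.range (2 ^ u),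
        (J q).indicator (fun _ => (1 : ℝ≥0∞)) j) *
          ∑' k : ℤ, (Lv P u k q E).indicator (fun _ => (1 : ℝ≥0∞)) z := by
        rw [Finset.sum_comm]
        apply Finset.sum_congr rfl
        intro q _
        rw [Finset.sum_mul]
    _ ≤ ∑ q ∈ Finset.Ico (q0 P u) (q1 P u), ENNReal.ofReal (tq Δ u q M s) := by
        apply Finset.sum_le_sum
        intro q hq
        rw [Finset.mem_Ico] at hq
        obtain ⟨hq0, hq1⟩ := hq
        by_cases hne : (J q).Nonempty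
        · obtain ⟨j₀, hj₀⟩ := hne
          have hmx := (hJprop q hq0 hq1 j₀ hj₀).2
          have hcount : ∑ j ∈ Finset.range (2 ^ u), (J q).indicator (fun _ => (1 : ℝ≥0∞)) j ≤
              ENNReal.ofReal (2 * ((2 : ℝ) ^ u * Δ.ell s (2 ^ (q - 3) - 1))) := by
            set S : Set ℕ := {j : ℕ | j < 2 ^ u ∧
              |Δ.sl u j - s| ≤ (2 : ℝ) ^ (-((2 ^ (q - 3) : ℕ) : ℤ))} with hS
            have hSfin : S.Finite := (Set.finite_lt_nat (2 ^ u)).subset (fun j hj => hj.1)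
            have hsep := hSy.sep u s (2 ^ (q - 3)) hok.u1
            have hJS : J q ⊆ S := fun j hj => ⟨hj.1, (hJprop q hq0 hq1 j hj).1⟩
            have hX1 : 2 ^ (q - 3) = 2 ^ (q - 3) - 1 + 1 := by
              have : 0 < 2 ^ (q - 3) := by positivity
              omega
            have hmono := hSy.mono s (2 ^ (q - 3) - 1)
            rw [← hX1] at hmono
            have hpos : (0 : ℝ) < 2 ^ u := by positivity
            have h3 : (2 : ℝ) ^ u * Δ.ell s (2 ^ (q - 3)) ≤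
              (2 : ℝ) ^ u * Δ.ell s (2 ^ (q - 3) - 1) := mul_le_mul_of_nonneg_left hmono hpos.le
            have h1 : (1 : ℝ) ≤ (2 : ℝ) ^ u * Δ.ell s (2 ^ (q - 3) - 1) :=
              (le_max_left 1 M).trans hmx
            have h4 : (S.ncard : ℝ) ≤ 2 * ((2 : ℝ) ^ u * Δ.ell s (2 ^ (q - 3) - 1)) := by
              have h5 : (S.ncard : ℝ) ≤ 1 + (2 : ℝ) ^ u * Δ.ell s (2 ^ (q - 3)) := by
                simpa only [hS] using hsep
              linarith
            calc ∑ j ∈ Finset.range (2 ^ u), (J q).indicator (fun _ => (1 : ℝ≥0∞)) j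
                ≤ ∑ j ∈ Finset.range (2 ^ u), if j ∈ S then (1 : ℝ≥0∞) else 0 := by
                  apply Finset.sum_le_sum
                  intro j _
                  by_cases hj : j ∈ J q
                  · rw [Set.indicator_of_mem hj, if_pos (hJS hj)]
                  · rw [Set.indicator_of_notMem hj]; exact zero_le
              _ = ((Finset.filter (fun j => j ∈ S) (Finset.range (2 ^ u))).card : ℝ≥0∞) := by
                  rw [← Finset.sum_filter, Finset.sum_const, nsmul_eq_mul, mul_one]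
              _ ≤ (S.ncard : ℝ≥0∞) := by
                  have : (Finset.filter (fun j => j ∈ S) (Finset.range (2 ^ u))).card ≤ S.ncard := by
                    rw [← Set.ncard_coe_finset]
                    apply Set.ncard_le_ncard _ hSfin
                    intro j hj
                    simpa using (Finset.mem_filter.mp hj).2
                  exact_mod_cast this
              _ = ENNReal.ofReal (S.ncard : ℝ) := by rw [ENNReal.ofReal_natCast]
              _ ≤ _ := ENNReal.ofReal_le_ofReal h4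
          have htq : tq Δ u q M s = 2 ^ q * (2 * ((2 : ℝ) ^ u * Δ.ell s (2 ^ (q - 3) - 1))) := by
            unfold tq
            rw [if_pos hmx]
          rw [htq, mul_comm ((2 : ℝ) ^ q), ENNReal.ofReal_mul' (by positivity)]
          apply mul_le_mul' hcount
          refine (ezc_K hEFB P u q E z).trans (le_of_eq ?_)
          rw [ENNReal.ofReal_pow (by norm_num)]
          norm_num
        · have hz0 : ∑ j ∈ Finset.range (2 ^ u), (J q).indicator (fun _ => (1 : ℝ≥0∞)) j = 0 := by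
            apply Finset.sum_eq_zero
            intro j _
            apply Set.indicator_of_notMem
            intro hj
            exact hne ⟨j, hj⟩
          rw [hz0, zero_mul]
          exact zero_le

end Pool.Agent.Helper38.EP
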